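import Pool.Agent.Y649.FA.CStar

/-!
# MP_9d0a1e_co: the dodecahedron needs three fully active cops
-/

set_option autoImplicit false

namespace Pool.Agent.Results.MP_9d0a1e_co.DodecahedronThree

open Pool.Agent.Y649.FA

/-- The dodecahedron is a connected planar graph with `c' ≥ 3`; hence `c* ≥ 3`. -/
theorem result : 3 ≤ cStar ∧ dodec.Connected ∧ Planar dodec ∧ 3 ≤ copNumber dodec :=
  ⟨three_le_cStar, dodec_conn, dodec_planar, three_le_dodec⟩

end Pool.Agent.Results.MP_9d0a1e_co.DodecahedronThree
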