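import Pool.Agent.Y649.FA.CStar

/-!
# MP_9d0a1e_co: four fully active cops win on every connected planar graph
-/

set_option autoImplicit false

namespace Pool.Agent.Results.MP_9d0a1e_co.FourCopsSuffice

open Pool.Agent.Y649.FA Pool.Agent.Helper805.CHS

/-- `c* ≤ 4`; more generally four fully active cops win on every finite connected graph with at
least two vertices and without a `K₃,₃` minor. -/
theorem result :
    cStar ≤ 4 ∧
    ∀ (V : Type) [Finite V] [Nontrivial V] (G : SimpleGraph V), G.Connected → ¬ K33Model G →
      CopsWin G 4 :=
  ⟨cStar_le_four, fun _ _ _ _ hc h => copsWin_four hc h⟩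

end Pool.Agent.Results.MP_9d0a1e_co.FourCopsSuffice
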